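import Pool.Agent.N627.ND.Stm

/-!
# Project ND (helper627), part C3 (helper507): number of edges in nowhere dense graphs
-/

set_option autoImplicit false
set_option linter.all false

namespace Pool.Agent.N507.ND

open Pool.Agent.N627.ND

theorem edges_le_sq (V : Type) [Fintype V] (G : SimpleGraph V) :
    G.edgeSet.ncard ≤ Fintype.card V ^ 2 := by
  classical
  have h1 : G.edgeSet.ncard ≤ Nat.card (Sym2 V) := by
    rw [← Set.ncard_univ]
    exact Set.ncard_le_ncard (Set.subset_univ _) (Set.toFinite _)
  have h2 : Nat.card (Sym2 V) ≤ Nat.card (V × V) :=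
    Nat.card_le_card_of_surjective (fun p : V × V => s(p.1, p.2)) (by
      intro e
      induction e with
      | h x y => exact ⟨(x, y), rfl⟩)
  rw [Nat.card_prod, Nat.card_eq_fintype_card (α := V)] at h2
  rw [pow_two]
  exact h1.trans h2

theorem dens_mono {a b : ℝ} (hab : a ≤ b) (h : DensB a) : DensB b := by
  intro μ
  obtain ⟨C, hC⟩ := h μ
  refine ⟨max C 0, fun V _ G hG => ?_⟩
  rcases Nat.eq_zero_or_pos (Fintype.card V) with h0 | h0
  · have h1 := edges_le_sq V G
    rw [h0] at h1
    have h2 : G.edgeSet.ncard = 0 := by simpa using h1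
    rw [h2, Nat.cast_zero]
    positivity
  · have h1 : (1 : ℝ) ≤ (Fintype.card V : ℝ) := by exact_mod_cast h0
    exact (hC V G hG).trans (mul_le_mul (le_max_left _ _)
      (Real.rpow_le_rpow_of_exponent_le h1 (by linarith)) (by positivity) (le_max_right _ _))

theorem dens_one : DensB 1 := by
  intro μ
  refine ⟨1, fun V _ G _ => ?_⟩
  have h1 : (1 : ℝ) + 1 = ((2 : ℕ) : ℝ) := by norm_num
  rw [h1, Real.rpow_natCast, one_mul]
  exact_mod_cast edges_le_sq V G

theorem edges_del (V : Type) [Fintype V] (G : SimpleGraph V) (v : V) :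
    G.edgeSet.ncard ≤ (G.comap (Subtype.val : {x // x ≠ v} → V)).edgeSet.ncard +
      (G.neighborSet v).ncard := by
  classical
  have hsub : G.edgeSet ⊆
      (Sym2.map Subtype.val '' (G.comap (Subtype.val : {x // x ≠ v} → V)).edgeSet) ∪
      ((fun w => s(v, w)) '' G.neighborSet v) := by
    intro e he
    induction e with
    | h x y =>
      rw [SimpleGraph.mem_edgeSet] at he
      by_cases hx : x = v
      · right
        subst hx
        exact ⟨y, he, rfl⟩
      · by_cases hy : y = v
        · right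
          subst hy
          exact ⟨x, he.symm, Sym2.eq_swap⟩
        · left
          exact ⟨s(⟨x, hx⟩, ⟨y, hy⟩), he, rfl⟩
  refine (Set.ncard_le_ncard hsub (Set.toFinite _)).trans ((Set.ncard_union_le _ _).trans ?_)
  exact add_le_add (Set.ncard_image_le (Set.toFinite _)) (Set.ncard_image_le (Set.toFinite _))

theorem link_comap {V W : Type} (G : SimpleGraph V) (f : W → V) (hf : Function.Injective f)
    {R t : ℕ} (h : Link (G.comap f) R t) : Link G R t := by
  obtain ⟨v, P, h1, h2⟩ := h
  refine ⟨fun i => f (v i), fun i j a => f (P i j a), fun i j hij => ?_,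
    fun i j k l h3 h4 h5 a b ha hb => ?_⟩
  · obtain ⟨e1, e2, e3⟩ := h1 i j hij
    refine ⟨congrArg f e1, congrArg f e2, fun a ha => ?_⟩
    rcases e3 a ha with e4 | e4
    · exact Or.inl (congrArg f e4)
    · exact Or.inr e4
  · exact fun e => h2 i j k l h3 h4 h5 a b ha hb (hf e)

theorem link_le {V : Type} (G : SimpleGraph V) {R t t' : ℕ} (htt : t ≤ t') (h : Link G R t') :
    Link G R t := by
  obtain ⟨v, P, h1, h2⟩ := h
  refine ⟨fun i => v (Fin.castLE htt i), fun i j => P (Fin.castLE htt i) (Fin.castLE htt j),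
    fun i j hij => h1 _ _ hij, fun i j k l h3 h4 h5 => h2 _ _ _ _ h3 h4 h5⟩

/-- The main step. -/
theorem step (h2 : S_C2) (hD : S_D) {a : ℝ} (ha : 0 < a) (ha1 : a ≤ 1)
    (h : DensB (a + a ^ 2)) : DensB a := by
  intro μ
  set t := max (μ 2) 2 with ht
  obtain ⟨C1, hC1, hm⟩ := h2 t (le_max_right _ _)
  obtain ⟨C2', hC2'⟩ := h fun R => μ (2 * R)
  set C2 := max C2' 1 with hC2d
  have hC2 : (1 : ℝ) ≤ C2 := le_max_right _ _
  set K : ℝ := t + 2 + 2 * C1 * (C1 * C2 + 1) with hK
  have hC12 : 0 < C1 * C2 := by positivity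
  have ht2 : (2 : ℝ) ≤ t := by exact_mod_cast le_max_right (μ 2) 2
  have hKt : (t : ℝ) + 2 ≤ K := by
    rw [hK]
    have : 0 ≤ 2 * C1 * (C1 * C2 + 1) := by positivity
    linarith
  have hK0 : 0 < K := by linarith
  have hK1 : 2 * C1 * (C1 * C2 + 1) < K := by rw [hK]; linarith
  refine ⟨K, ?_⟩
  suffices hmain : ∀ (n : ℕ) (V : Type) [Fintype V] (G : SimpleGraph V), Fintype.card V = n →
      Ex μ G → (G.edgeSet.ncard : ℝ) ≤ K * (n : ℝ) ^ (1 + a) from
    fun V _ G hG => hmain _ V G rfl hG
  intro n
  induction n with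
  | zero =>
    intro V _ G hV hG
    have h1 := edges_le_sq V G
    rw [hV] at h1
    have h2 : G.edgeSet.ncard = 0 := by simpa using h1
    rw [h2, Nat.cast_zero]
    positivity
  | succ n ih =>
    intro V _ G hV hG
    classical
    by_contra hcon
    rw [not_le] at hcon
    set N : ℝ := ((n + 1 : ℕ) : ℝ) with hN
    have hN1 : 1 ≤ N := by
      rw [hN]
      exact_mod_cast Nat.le_add_left 1 n
    have hN0 : 0 < N := by linarith
    have hnN : (n : ℝ) = N - 1 := by rw [hN]; push_cast; ring
    have hNa : 1 ≤ N ^ a := Real.one_le_rpow hN1 ha.le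
    haveI : Nonempty V := Fintype.card_pos_iff.1 (by omega)
    -- the degrees
    have hdeg : ∀ v, K * N ^ a < ((G.neighborSet v).ncard : ℝ) := by
      intro v
      have h3 := ih {x // x ≠ v} (G.comap (Subtype.val : {x // x ≠ v} → V)) (by
        rw [Fintype.card_subtype_compl, Fintype.card_subtype_eq, hV]
        rfl) (fun R hR => hG R (link_comap G _ Subtype.val_injective hR))
      have h4 : (G.edgeSet.ncard : ℝ) ≤
          ((G.comap (Subtype.val : {x // x ≠ v} → V)).edgeSet.ncard : ℝ) +
            ((G.neighborSet v).ncard : ℝ) := by exact_mod_cast edges_del V G v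
      have h5 : (n : ℝ) ^ (1 + a) ≤ (N - 1) * N ^ a := by
        rcases Nat.eq_zero_or_pos n with h0 | h0
        · rw [h0, Nat.cast_zero, Real.zero_rpow (by linarith)]
          exact mul_nonneg (by linarith) (by positivity)
        · have h6 : (0 : ℝ) < n := by exact_mod_cast h0
          rw [Real.rpow_add h6, Real.rpow_one, hnN]
          refine mul_le_mul_of_nonneg_left ?_ (by linarith)
          exact Real.rpow_le_rpow (by linarith) (by linarith) ha.le
      have h6 : N ^ (1 + a) = N * N ^ a := by
        rw [Real.rpow_add hN0, Real.rpow_one]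
      rw [h6] at hcon
      nlinarith [mul_le_mul_of_nonneg_left h5 hK0.le]
    set d := ⌊K * N ^ a⌋₊ with hd
    have hKN : K ≤ K * N ^ a := le_mul_of_one_le_right hK0.le hNa
    have hKN0 : 0 ≤ K * N ^ a := by positivity
    have hdt : t ≤ d := by
      rw [hd]
      refine Nat.le_floor ?_
      linarith
    have hdle : (d : ℝ) ≤ K * N ^ a := Nat.floor_le hKN0
    have hdge : K * N ^ a / 2 ≤ d := by
      have h3 := Nat.lt_floor_add_one (K * N ^ a)
      rw [← hd] at h3
      linarith
    have hd0 : (0 : ℝ) < d := by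
      have : (0 : ℝ) < K * N ^ a / 2 := by positivity
      linarith
    obtain ⟨m, H, hmod, hm1, hm2⟩ := hm V G d hdt
      (fun hL => hG 2 (link_le G (le_max_left _ _) hL)) (fun v => by
        have h3 := hdeg v
        have h4 : (d : ℝ) ≤ ((G.neighborSet v).ncard : ℝ) := by linarith
        exact_mod_cast h4)
    rw [hV] at hm1 hm2
    have hH : Ex (fun R => μ (2 * R)) H := fun R hR =>
      hG (2 * R) (hD _ _ H G 2 (by norm_num) hmod R _ hR)
    have h3 := hC2' (Fin m) H hH
    rw [Fintype.card_fin] at h3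
    have h4 : (H.edgeSet.ncard : ℝ) ≤ C2 * (m : ℝ) ^ (1 + (a + a ^ 2)) :=
      h3.trans (mul_le_mul_of_nonneg_right (le_max_left _ _) (by positivity))
    -- the bound for `m`
    set x : ℝ := 2 * C1 / K with hx
    have hx0 : 0 < x := by positivity
    have hx1 : x ≤ 1 := by
      rw [hx, div_le_one hK0]
      nlinarith
    have h5 : (m : ℝ) ≤ x * N ^ (1 - a) := by
      have h6 : (m : ℝ) * (K * N ^ a / 2) ≤ C1 * N :=
        (mul_le_mul_of_nonneg_left hdge (Nat.cast_nonneg m)).trans hm1
      have h7 : N ^ (1 - a) = N / N ^ a := by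
        rw [Real.rpow_sub hN0, Real.rpow_one]
      have h8 : 0 < N ^ a := by positivity
      rw [h7, hx, div_mul_div_comm, le_div_iff₀ (by positivity)]
      linarith
    have hxN : 0 < x * N ^ (1 - a) := by positivity
    have hea : 0 < 1 + (a + a ^ 2) := by positivity
    have h6 : (m : ℝ) ^ (1 + (a + a ^ 2)) ≤ x * N := by
      calc (m : ℝ) ^ (1 + (a + a ^ 2)) ≤ (x * N ^ (1 - a)) ^ (1 + (a + a ^ 2)) :=
            Real.rpow_le_rpow (Nat.cast_nonneg m) h5 hea.le
        _ = x ^ (1 + (a + a ^ 2)) * (N ^ (1 - a)) ^ (1 + (a + a ^ 2)) :=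
            Real.mul_rpow hx0.le (by positivity)
        _ = x ^ (1 + (a + a ^ 2)) * N ^ ((1 - a) * (1 + (a + a ^ 2))) := by
            rw [← Real.rpow_mul hN0.le]
        _ ≤ x ^ (1 : ℝ) * N ^ (1 : ℝ) := by
            refine mul_le_mul ?_ ?_ (by positivity) (by positivity)
            · refine Real.rpow_le_rpow_of_exponent_ge hx0 hx1 ?_
              nlinarith [sq_nonneg a]
            · refine Real.rpow_le_rpow_of_exponent_le hN1 ?_
              have : 0 < a ^ 3 := by positivity
              nlinarith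
        _ = x * N := by rw [Real.rpow_one, Real.rpow_one]
    have h7 : N ≤ C1 * (C2 * (x * N)) := by
      refine hm2.trans (mul_le_mul_of_nonneg_left (h4.trans ?_) hC1.le)
      exact mul_le_mul_of_nonneg_left h6 (by linarith)
    have h8 : 1 ≤ C1 * C2 * x := by
      by_contra h9
      rw [not_le] at h9
      have : C1 * C2 * x * N < 1 * N := mul_lt_mul_of_pos_right h9 hN0
      linarith
    rw [hx, ← mul_div_assoc, le_div_iff₀ hK0] at h8
    nlinarith

/-- Project ND, C3: nowhere dense graphs have few edges. -/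
theorem c3 (h2 : S_C2) (hD : S_D) : S_C := by
  intro a ha
  rcases le_or_gt 1 a with h1 | h1
  · exact dens_mono h1 dens_one
  · have key : ∀ (k : ℕ) (b : ℝ), a ≤ b → b ≤ 1 → 1 ≤ b + k * a ^ 2 → DensB b := by
      intro k
      induction k with
      | zero =>
        intro b hb hb1 h
        rw [Nat.cast_zero, zero_mul, add_zero] at h
        exact dens_mono h dens_one
      | succ k ih =>
        intro b hb hb1 h
        have hb0 : 0 < b := lt_of_lt_of_le ha hb
        refine step h2 hD hb0 hb1 ?_
        rcases le_or_gt 1 (b + b ^ 2) with h3 | h3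
        · exact dens_mono h3 dens_one
        · refine ih _ ?_ h3.le ?_
          · nlinarith [sq_nonneg b]
          · push_cast at h
            have h4 : a ^ 2 ≤ b ^ 2 := pow_le_pow_left₀ ha.le hb 2
            linarith
    obtain ⟨k, hk⟩ := exists_nat_ge (1 / a ^ 2)
    refine key k a le_rfl h1.le ?_
    have h3 : 0 < a ^ 2 := by positivity
    rw [div_le_iff₀ h3] at hk
    linarith

end Pool.Agent.N507.ND
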